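import Mathlib
import Pool.Agent.R469.Rig

set_option autoImplicit false

/-!
The exceptions to `l(n) ≤ n` climb: a trajectory of the Collatz function has at most `A X^0.951` different
terms `≤ X`, so if `l(n) > n` and the trajectory does not enter a cycle other than that of `1`, then most
of its first `n` terms are at least `c n^1.051`.
-/

namespace Pool.Agent.Results.MP_e43fce_nt.ClimbOfExceptions

open Finset

/-- The Collatz function. -/
def C (n : ℕ) : ℕ := if n % 2 = 0 then n / 2 else 3 * n + 1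

open Classical in
/-- The total stopping time `l(n)`: the least `k ≥ 0` with `C^(k)(n) = 1`, and `⊤ = ∞` if there is none. -/
noncomputable def l (n : ℕ) : ℕ∞ :=
  if h : ∃ k : ℕ, C^[k] n = 1 then ((Nat.find h : ℕ) : ℕ∞) else ⊤

/-- The trajectory of `n` enters a cycle which does not contain `1`. -/
def EntersOtherCycle (n : ℕ) : Prop :=
  ∃ i p : ℕ, 1 ≤ p ∧ C^[i + p] n = C^[i] n ∧ ∀ j : ℕ, C^[j] n ≠ 1

/-- The number of the `j < L` with `C^(j)(n) ≤ X`. -/
noncomputable def smallTerms (n L : ℕ) (X : ℝ) : ℕ := {j : ℕ | j < L ∧ ((C^[j] n : ℕ) : ℝ) ≤ X}.ncard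

open Pool.Agent.R469

/-- the terms of the Collatz trajectory -/
lemma form (n j : ℕ) : ∃ i, C^[j] n = Rig.T^[i] n ∨ (Rig.T^[i] n % 2 = 1 ∧ C^[j] n = 3 * Rig.T^[i] n + 1) := by
  induction j with
  | zero => exact ⟨0, Or.inl rfl⟩
  | succ j ih =>
    obtain ⟨i, h | ⟨h1, h2⟩⟩ := ih
    · rcases Nat.mod_two_eq_zero_or_one (Rig.T^[i] n) with h' | h'
      · refine ⟨i + 1, Or.inl ?_⟩
        rw [Function.iterate_succ_apply', Function.iterate_succ_apply', h]
        have := Rig.T_even h'
        unfold C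
        rw [if_pos h']
        omega
      · refine ⟨i, Or.inr ⟨h', ?_⟩⟩
        rw [Function.iterate_succ_apply', h]
        unfold C
        rw [if_neg (by omega)]
    · refine ⟨i + 1, Or.inl ?_⟩
      rw [Function.iterate_succ_apply', Function.iterate_succ_apply', h2]
      have := Rig.T_odd h1
      unfold C
      rw [if_pos (by omega)]
      omega

/-- few small terms -/
lemma few : ∃ A : ℝ, 0 < A ∧ ∀ n L : ℕ,
    (∀ i < L, ∀ j < L, C^[i] n = C^[j] n → i = j) → ∀ X : ℝ, 1 ≤ X →
      (smallTerms n L X : ℝ) ≤ A * X ^ (951 / 1000 : ℝ) := by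
  obtain ⟨A, hA0, hA⟩ := Pool.Agent.H319R2.orbit_sparse (951 / 1000)
    (by have := Pool.Agent.H319R2.beta_lt; norm_num at this ⊢; exact this)
  refine ⟨2 * A, by positivity, ?_⟩
  intro n L hinj X hX
  classical
  -- the small terms of the accelerated trajectory
  set O : Finset ℕ := (Finset.range (⌊X⌋₊ + 1)).filter fun y => ∃ i, Rig.T^[i] n = y with hO
  have hOc : (O.card : ℝ) ≤ A * X ^ (951 / 1000 : ℝ) := by
    have h := hA (n : ℤ) X hX (O.image fun y : ℕ => (y : ℤ)) (by
      intro y hy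
      rw [mem_image] at hy
      obtain ⟨z, hz, rfl⟩ := hy
      rw [hO, mem_filter, mem_range] at hz
      obtain ⟨i, hi⟩ := hz.2
      refine ⟨⟨i, by rw [Rig.T_cast, hi]⟩, ?_⟩
      rw [Int.cast_natCast, abs_of_nonneg (by positivity)]
      have : z ≤ ⌊X⌋₊ := by omega
      exact (Nat.cast_le.2 this).trans (Nat.floor_le (by linarith)))
    rw [card_image_of_injective _ Nat.cast_injective] at h
    exact h
  -- all small terms
  have hsub : ((Finset.range L).filter fun j => ((C^[j] n : ℕ) : ℝ) ≤ X).image (fun j => C^[j] n) ⊆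
      O ∪ O.image (fun y => 3 * y + 1) := by
    intro y hy
    rw [mem_image] at hy
    obtain ⟨j, hj, rfl⟩ := hy
    rw [mem_filter, mem_range] at hj
    have hfl : C^[j] n ≤ ⌊X⌋₊ := Nat.le_floor hj.2
    rw [mem_union]
    obtain ⟨i, h | ⟨h1, h2⟩⟩ := form n j
    · left
      rw [hO, mem_filter, mem_range]
      exact ⟨by omega, i, h.symm⟩
    · right
      rw [mem_image]
      refine ⟨Rig.T^[i] n, ?_, h2.symm⟩
      rw [hO, mem_filter, mem_range]
      exact ⟨by omega, i, rfl⟩
  have h1 := card_le_card hsub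
  rw [card_image_of_injOn (by
    intro i hi j hj hij
    exact hinj i (mem_range.1 (mem_filter.1 hi).1) j (mem_range.1 (mem_filter.1 hj).1) hij)] at h1
  have h2 := card_union_le O (O.image (fun y => 3 * y + 1))
  have h3 : (O.image (fun y => 3 * y + 1)).card ≤ O.card := card_image_le
  have h4 : smallTerms n L X = ((Finset.range L).filter fun j => ((C^[j] n : ℕ) : ℝ) ≤ X).card := by
    unfold smallTerms
    rw [← Set.ncard_coe_finset]
    congr 1
    ext j
    simp
  rw [h4]
  have h5 : ((Finset.range L).filter fun j => ((C^[j] n : ℕ) : ℝ) ≤ X).card ≤ 2 * O.card := by omega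
  have h6 : ((((Finset.range L).filter fun j => ((C^[j] n : ℕ) : ℝ) ≤ X).card : ℕ) : ℝ) ≤ 2 * O.card := by
    exact_mod_cast h5
  linarith

/-- the terms before the first visit to `1`, or all terms of a trajectory which does not enter a cycle,
are different -/
lemma distinct_of {n L : ℕ} (hL : (L : ℕ∞) ≤ l n) (hc : ¬ EntersOtherCycle n) :
    ∀ i < L, ∀ j < L, C^[i] n = C^[j] n → i = j := by
  classical
  have key : ∀ i j : ℕ, i < j → j < L → C^[i] n ≠ C^[j] n := by
    intro i j hij hjL he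
    by_cases h1 : ∃ k, C^[k] n = 1
    · have hl : l n = ((Nat.find h1 : ℕ) : ℕ∞) := by unfold l; rw [dif_pos h1]
      rw [hl, Nat.cast_le] at hL
      have hk := Nat.find_spec h1
      set k := Nat.find h1 with hkd
      have h2 : C^[k - j + i] n = 1 := by
        rw [Function.iterate_add_apply, he, ← Function.iterate_add_apply, show k - j + j = k by omega]
        exact hk
      exact Nat.find_min h1 (show k - j + i < Nat.find h1 by omega) h2
    · refine hc ⟨i, j - i, by omega, ?_, fun m hm => h1 ⟨m, hm⟩⟩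
      rw [show i + (j - i) = j by omega, he]
  intro i hi j hj he
  rcases lt_trichotomy i j with h1 | h1 | h1
  · exact absurd he (key i j h1 hj)
  · exact h1
  · exact absurd he.symm (key j i h1 hi)

/-- There is `A` such that for all `n ≥ 1` whose trajectory does not enter a cycle not containing `1`:
(1) among the terms `C^(j)(n)`, `j < L`, at most `A X^0.951` are `≤ X`, for all `X ≥ 1` and all `L ≤ l(n)`;
(2) if `l(n) = k` is finite and all terms of the trajectory are `≤ V` then `k ≤ A V^0.951`;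
(3) if `l(n) > n`, finite or infinite, then for every `δ ≤ 1` with `δ n ≥ 1` at most `A δ n` of the first `n`
terms are `≤ (δ n)^(1000/951)`; in particular some term with `j < n` is larger than
`(n / (2 A + 2))^(1000/951)`, if `n ≥ 2 A + 2`. -/
theorem result : ∃ A : ℝ, 0 < A ∧ ∀ n : ℕ, 1 ≤ n → ¬ EntersOtherCycle n →
    (∀ L : ℕ, (L : ℕ∞) ≤ l n → ∀ X : ℝ, 1 ≤ X → (smallTerms n L X : ℝ) ≤ A * X ^ (951 / 1000 : ℝ)) ∧
    (∀ k : ℕ, l n = k → ∀ V : ℝ, 1 ≤ V → (∀ j, ((C^[j] n : ℕ) : ℝ) ≤ V) → (k : ℝ) ≤ A * V ^ (951 / 1000 : ℝ)) ∧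
    ((n : ℕ∞) < l n →
      (∀ δ : ℝ, 0 < δ → δ ≤ 1 → 1 ≤ δ * n →
        (smallTerms n n ((δ * n) ^ (1000 / 951 : ℝ)) : ℝ) ≤ A * (δ * n)) ∧
      (2 * A + 2 ≤ n → ∃ j < n, ((n : ℝ) / (2 * A + 2)) ^ (1000 / 951 : ℝ) < ((C^[j] n : ℕ) : ℝ))) := by
  obtain ⟨A, hA0, hA⟩ := few
  have hfew : ∀ n : ℕ, 1 ≤ n → ¬ EntersOtherCycle n → ∀ L : ℕ, (L : ℕ∞) ≤ l n → ∀ X : ℝ, 1 ≤ X →
      (smallTerms n L X : ℝ) ≤ A * X ^ (951 / 1000 : ℝ) := by
    intro n _ hc L hL X hX
    exact hA n L (distinct_of hL hc) X hX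
  refine ⟨A, hA0, fun n hn hc => ⟨fun L hL X hX => hfew n hn hc L hL X hX, ?_, ?_⟩⟩
  · intro k hk V hV hall
    have h1 := hfew n hn hc k (by rw [hk]) V hV
    have h2 : smallTerms n k V = k := by
      unfold smallTerms
      have : {j : ℕ | j < k ∧ ((C^[j] n : ℕ) : ℝ) ≤ V} = (Finset.range k : Set ℕ) := by
        ext j
        simp [hall j]
      rw [this, Set.ncard_coe_finset, card_range]
    rw [h2] at h1
    exact h1
  · intro hex
    have h3 : ∀ δ : ℝ, 0 < δ → 1 ≤ δ * n →
        (smallTerms n n ((δ * n) ^ (1000 / 951 : ℝ)) : ℝ) ≤ A * (δ * n) := by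
      intro δ hδ hδn
      have h1 := hfew n hn hc n hex.le ((δ * n) ^ (1000 / 951 : ℝ)) (Real.one_le_rpow hδn (by norm_num))
      rw [← Real.rpow_mul (by linarith)] at h1
      norm_num at h1
      exact h1
    refine ⟨fun δ hδ _ hδn => h3 δ hδ hδn, ?_⟩
    intro hnA
    by_contra hcon
    push Not at hcon
    have hn0 : (0 : ℝ) < n := by exact_mod_cast hn
    have h4 := h3 (1 / (2 * A + 2)) (by positivity) (by
      rw [div_mul_eq_mul_div, one_mul, le_div_iff₀ (by positivity)]
      linarith)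
    have e : 1 / (2 * A + 2) * (n : ℝ) = n / (2 * A + 2) := by ring
    rw [e] at h4
    have h5 : smallTerms n n (((n : ℝ) / (2 * A + 2)) ^ (1000 / 951 : ℝ)) = n := by
      unfold smallTerms
      have : {j : ℕ | j < n ∧ ((C^[j] n : ℕ) : ℝ) ≤ ((n : ℝ) / (2 * A + 2)) ^ (1000 / 951 : ℝ)} =
          (Finset.range n : Set ℕ) := by
        ext j
        simp only [Set.mem_ofPred_eq, coe_range, Set.mem_Iio, and_iff_left_iff_imp]
        exact hcon j
      rw [this, Set.ncard_coe_finset, card_range]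
    rw [h5] at h4
    have h6 : A * ((n : ℝ) / (2 * A + 2)) < n := by
      rw [mul_div_assoc', div_lt_iff₀ (by positivity)]
      nlinarith
    linarith

end Pool.Agent.Results.MP_e43fce_nt.ClimbOfExceptions
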