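import Pool.Agent.R468.MF.FinTC

/-!
THE MOST FREQUENT TOTAL STOPPING TIME `l(n)` OF THE COLLATZ FUNCTION, and THE NUMBER OF TUPLES WITH
EQUAL TOTAL STOPPING TIMES.

Author: helper468. Uses the local limit law of the total stopping time (Pool/Agent/R468/GL), Poisson
summation (Pool/Agent/R468/MF) and the harmonic relation for the level sets (Pool/Agent/TH977/LL).
-/

set_option autoImplicit false

namespace Pool.Agent.Results.MP_e43fce_nt.MostFrequentTimes

open Filter Topology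

/-- the Collatz function -/
def C (n : ℕ) : ℕ := if n % 2 = 0 then n / 2 else 3 * n + 1

/-- `l` is the total stopping time `l(n)` of `n` -/
def IsTotalStoppingTime (n l : ℕ) : Prop := C^[l] n = 1 ∧ ∀ j < l, C^[j] n ≠ 1

/-- the number of the positive integers `n ≤ x` with total stopping time exactly `k` -/
noncomputable def N (x : ℝ) (k : ℕ) : ℕ :=
  {n : ℕ | 1 ≤ n ∧ (n : ℝ) ≤ x ∧ IsTotalStoppingTime n k}.ncard

/-- the number of the `r`-tuples of positive integers up to `x` which have the same finite total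
stopping time -/
noncomputable def E (r : ℕ) (x : ℝ) : ℕ :=
  {w : Fin r → ℕ | (∀ i, 1 ≤ w i ∧ (w i : ℝ) ≤ x) ∧ ∃ k : ℕ, ∀ i, IsTotalStoppingTime (w i) k}.ncard

/-- the positive integers with the property `P` have the natural density `δ` -/
def HasDensity (P : ℕ → Prop) (δ : ℝ) : Prop :=
  Tendsto (fun M : ℕ => ({n : ℕ | 1 ≤ n ∧ n ≤ M ∧ P n}.ncard : ℝ) / M) atTop (𝓝 δ)

/-- the constant of the mean value -/
noncomputable def μ : ℝ := 3 / Real.log (4 / 3)

/-- the constant of the variance -/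
noncomputable def σ2 : ℝ := 2 * Real.log 6 ^ 2 / Real.log (4 / 3) ^ 3

/-- the number `√(2 π σ2 log x)` -/
noncomputable def s (x : ℝ) : ℝ := Real.sqrt (2 * Real.pi * (σ2 * Real.log x))

/-- the value at `k` of the density of the normal distribution of mean `μ log x` and variance
`σ2 log x` -/
noncomputable def g (x : ℝ) (k : ℕ) : ℝ := Real.exp (-(((k : ℝ) - μ * Real.log x) ^ 2 / (2 * (σ2 * Real.log x)))) / s x

/-- `Ψ` is the profile of the local limit law of the total stopping time: `N(x, k) / (x g(x, k))` is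
asymptotically `Ψ (log_6 (x / 2^k))`, uniformly for `|k - μ log x| ≤ K √(log x)` -/
def IsProfile (Ψ : ℝ → ℝ) : Prop := ∀ K ε : ℝ, 0 < ε → ∃ X₀ : ℝ, ∀ x : ℝ, X₀ ≤ x → ∀ k : ℕ,
  |(k : ℝ) - μ * Real.log x| ≤ K * Real.sqrt (Real.log x) →
  |(N x k : ℝ) / (x * g x k) - Ψ (Real.logb 6 (x / 2 ^ k))| ≤ ε

/-- THE MOST FREQUENT TOTAL STOPPING TIME AND THE EQUAL TOTAL STOPPING TIMES. There are `δ`, a function
`Ψ` and `M` such that

* `0 < δ ≤ 1`, `δ` is the density of the integers of finite total stopping time, and `δ = 1` iff all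
  positive integers have finite total stopping time;
* `Ψ` is continuous, has period one, is the profile of the local limit law, lies between
  `δ (log 6) / 5` and `6 δ (log 6) / 5`, and its mean is `δ`; its maximum is `M`, and `δ ≤ M`;
* the largest of the numbers `N(x, k)`, over all `k`, is `(M + o(1)) x / √(2 π σ2 log x)`, a value of
  this size is taken at some `k = μ log x + o(√(log x))`, and all most frequent values `k` satisfy
  `k = μ log x + o(√(log x))`;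
* for every `r ≥ 1` the number of the `r`-tuples of positive integers up to `x` with equal finite
  total stopping times is asymptotic to `c_r x^r / (2 π σ2 log x)^((r-1)/2)`, with
  `c_r = (1 / √r) ∫ Ψ^r`. -/
theorem result : ∃ (δ : ℝ) (Ψ : ℝ → ℝ) (M : ℝ), 0 < δ ∧ δ ≤ 1 ∧
    (δ = 1 ↔ ∀ n : ℕ, 1 ≤ n → ∃ t : ℕ, C^[t] n = 1) ∧
    HasDensity (fun n => ∃ t : ℕ, C^[t] n = 1) δ ∧
    Continuous Ψ ∧ (∀ u : ℝ, Ψ (u + 1) = Ψ u) ∧
    (∀ u : ℝ, δ * (Real.log 6 / 5) ≤ Ψ u ∧ Ψ u ≤ δ * (6 * Real.log 6 / 5)) ∧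
    (∫ u in (0 : ℝ)..1, Ψ u = δ) ∧ (∀ u : ℝ, Ψ u ≤ M) ∧ (∃ u : ℝ, Ψ u = M) ∧ δ ≤ M ∧
    IsProfile Ψ ∧
    (∀ ε : ℝ, 0 < ε → ∃ X₀ : ℝ, ∀ x : ℝ, X₀ ≤ x →
      (∀ k : ℕ, (N x k : ℝ) ≤ (M + ε) * x / s x) ∧
      (∃ k : ℕ, |(k : ℝ) - μ * Real.log x| ≤ ε * Real.sqrt (Real.log x) ∧ (M - ε) * x / s x ≤ (N x k : ℝ)) ∧
      ∀ k : ℕ, (∀ i : ℕ, N x i ≤ N x k) → |(k : ℝ) - μ * Real.log x| ≤ ε * Real.sqrt (Real.log x)) ∧
    (∀ r : ℕ, 1 ≤ r → Tendsto (fun x : ℝ => (E r x : ℝ) * (s x ^ (r - 1) / x ^ r)) atTop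
      (𝓝 (1 / Real.sqrt r * ∫ u in (0 : ℝ)..1, Ψ u ^ r))) :=
  Pool.Agent.R468.MF.freq_C

end Pool.Agent.Results.MP_e43fce_nt.MostFrequentTimes
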