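import Pool.Agent.R344.LS.W

/-!
# The integers of given total stopping time, weighted by their reciprocals

For large `k` almost all of the reciprocal mass of the `n` with `l(n) = k` sits at integers with `l(n)`
close to `3 / log (4/3) * log n`, so at integers with `l(n)` much smaller than `n`; the mass is
distributed over the numbers `o` of odd terms like `binom (k - o, o) / 2^(k - o)`.

Author: helper344.
-/

set_option autoImplicit false

namespace Pool.Agent.Results.MP_e43fce_nt.ReciprocalMassOfLevels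

open Filter Topology

/-- the Collatz function -/
def C (n : ℕ) : ℕ := if n % 2 = 0 then n / 2 else 3 * n + 1

/-- `k` is the total stopping time `l(n)` of `n` -/
def IsStoppingTime (k n : ℕ) : Prop := C^[k] n = 1 ∧ ∀ i < k, C^[i] n ≠ 1

/-- the number of odd integers among `n, C n, ..., C^(k-1) n` -/
def odds (k n : ℕ) : ℕ := ((Finset.range k).filter fun i => C^[i] n % 2 = 1).card

/-- the sum of the reciprocals of the members of a set of positive integers -/
noncomputable def mass (A : Set ℕ) : ℝ := ∑' n : A, (1 : ℝ) / ((n : ℕ) : ℝ)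

/-- THE INTEGERS OF GIVEN TOTAL STOPPING TIME. There is a `δ` such that

* `0 < δ ≤ 1`, `δ` is the density of the integers with `l(n) < ∞`, and `δ = 1` iff `l(n) < ∞` for all
  `n ≥ 1`;
* the mass of the integers with `l(n) = k` and with exactly `o` odd terms before the first `1` is close
  to `(1/2) log (4/3) δ binom (k - o, o) / 2^(k - o)`: the sum over `o` of the absolute values of the
  differences tends to zero as `k → ∞`;
* for every `ε > 0` the mass of the `n` with `l(n) = k` and `|k - 3 / log (4/3) * log n| > ε k` tends to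
  zero as `k → ∞`. -/
theorem result : ∃ δ : ℝ, 0 < δ ∧ δ ≤ 1 ∧
    (δ = 1 ↔ ∀ n : ℕ, 1 ≤ n → ∃ k : ℕ, C^[k] n = 1) ∧
    Tendsto (fun N : ℕ => ({n : ℕ | 1 ≤ n ∧ n ≤ N ∧ ∃ k : ℕ, C^[k] n = 1}.ncard : ℝ) / N) atTop (𝓝 δ) ∧
    Tendsto (fun k : ℕ => ∑ o ∈ Finset.range (k + 1),
      |mass {n : ℕ | 1 ≤ n ∧ IsStoppingTime k n ∧ odds k n = o} -
        Real.log (4 / 3) / 2 * δ * (((k - o).choose o : ℝ) / 2 ^ (k - o))|) atTop (𝓝 0) ∧
    ∀ ε : ℝ, 0 < ε → Tendsto (fun k : ℕ => mass {n : ℕ | 1 ≤ n ∧ IsStoppingTime k n ∧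
      ε * k < |(k : ℝ) - 3 / Real.log (4 / 3) * Real.log n|}) atTop (𝓝 0) :=
  Pool.Agent.R344.LS.main_C'

end Pool.Agent.Results.MP_e43fce_nt.ReciprocalMassOfLevels
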